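import Pool.Agent.Helper303.HoMain

/-!
From the failure of uniform estimates to a single form without bounded solutions (open mapping
theorem).
-/

set_option autoImplicit false

open MeasureTheory Set
open scoped BoundedContinuousFunction

namespace Pool.Agent.Y947.HB

open Pool.Agent.Helper303.Db Pool.Agent.Helper303.Ho

variable {n : ℕ}

open Classical in
/-- extension by zero -/
noncomputable def ext0 (Ω : Set (Fin n → ℂ)) (g : Ω →ᵇ ℂ) (x : Fin n → ℂ) : ℂ :=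
  if h : x ∈ Ω then g ⟨x, h⟩ else 0

lemma ext0_of_mem {Ω : Set (Fin n → ℂ)} (g : Ω →ᵇ ℂ) {x : Fin n → ℂ} (h : x ∈ Ω) :
    ext0 Ω g x = g ⟨x, h⟩ := by
  unfold ext0
  rw [dif_pos h]

lemma ext0_cont {Ω : Set (Fin n → ℂ)} (g : Ω →ᵇ ℂ) : ContinuousOn (ext0 Ω g) Ω := by
  rw [continuousOn_iff_continuous_domRestrict]
  have e : Ω.domRestrict (ext0 Ω g) = g := by
    funext x
    exact ext0_of_mem g x.2
  rw [e]
  exact g.continuous

lemma ext0_norm {Ω : Set (Fin n → ℂ)} (g : Ω →ᵇ ℂ) (x : Fin n → ℂ) : ‖ext0 Ω g x‖ ≤ ‖g‖ := by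
  unfold ext0
  split_ifs with h
  · exact g.norm_coe_le_norm _
  · rw [norm_zero]
    exact norm_nonneg _

lemma ext0_add {Ω : Set (Fin n → ℂ)} (g h : Ω →ᵇ ℂ) (x : Fin n → ℂ) :
    ext0 Ω (g + h) x = ext0 Ω g x + ext0 Ω h x := by
  unfold ext0
  split_ifs with hx
  · rfl
  · rw [add_zero]

lemma ext0_smul {Ω : Set (Fin n → ℂ)} (c : ℂ) (g : Ω →ᵇ ℂ) (x : Fin n → ℂ) :
    ext0 Ω (c • g) x = c * ext0 Ω g x := by
  unfold ext0
  split_ifs with hx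
  · rfl
  · rw [mul_zero]

/-- pairing with a continuous function of compact support in `Ω` -/
noncomputable def pair {Ω : Set (Fin n → ℂ)} (hΩ : IsOpen Ω) (ψ : (Fin n → ℂ) → ℂ)
    (hc : Continuous ψ) (hs : HasCompactSupport ψ) (ht : tsupport ψ ⊆ Ω) : (Ω →ᵇ ℂ) →L[ℂ] ℂ :=
  LinearMap.mkContinuous
    { toFun := fun g => ∫ x in Ω, ext0 Ω g x * ψ x
      map_add' := by
        intro g h
        rw [← integral_add (integrable_mul_of_cs hΩ (ext0_cont g) hc hs ht).integrableOn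
          (integrable_mul_of_cs hΩ (ext0_cont h) hc hs ht).integrableOn]
        congr 1
        funext x
        rw [ext0_add]
        ring
      map_smul' := by
        intro c g
        rw [RingHom.id_apply, smul_eq_mul, ← integral_const_mul]
        congr 1
        funext x
        rw [ext0_smul]
        ring }
    (∫ x in Ω, ‖ψ x‖)
    (by
      intro g
      have hi : Integrable (fun x => ‖ψ x‖) (volume.restrict Ω) :=
        (hc.integrable_of_hasCompactSupport hs).norm.integrableOn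
      calc ‖∫ x in Ω, ext0 Ω g x * ψ x‖ ≤ ∫ x in Ω, ‖ext0 Ω g x * ψ x‖ :=
            norm_integral_le_integral_norm _
        _ ≤ ∫ x in Ω, ‖g‖ * ‖ψ x‖ := by
            apply integral_mono_of_nonneg (Filter.Eventually.of_forall fun _ => norm_nonneg _)
              (hi.const_mul _)
            refine Filter.Eventually.of_forall fun x => ?_
            simp only [norm_mul]
            exact mul_le_mul_of_nonneg_right (ext0_norm g x) (norm_nonneg _)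
        _ = (∫ x in Ω, ‖ψ x‖) * ‖g‖ := by rw [integral_const_mul, mul_comm])

lemma pair_apply {Ω : Set (Fin n → ℂ)} (hΩ : IsOpen Ω) (ψ : (Fin n → ℂ) → ℂ)
    (hc : Continuous ψ) (hs : HasCompactSupport ψ) (ht : tsupport ψ ⊆ Ω) (g : Ω →ᵇ ℂ) :
    pair hΩ ψ hc hs ht g = ∫ x in Ω, ext0 Ω g x * ψ x := rfl

/-- pairing with `∂φ/∂z̄_j` -/
noncomputable def pD {Ω : Set (Fin n → ℂ)} (hΩ : IsOpen Ω) (j : Fin n) (φ : (Fin n → ℂ) → ℂ)
    (hφ : IsTest Ω φ) : (Ω →ᵇ ℂ) →L[ℂ] ℂ :=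
  pair hΩ (dbar j φ) (hφ.continuous_dbar j) (hφ.hcs_dbar j) (hφ.tsupport_dbar j)

/-- pairing with `φ` -/
noncomputable def pT {Ω : Set (Fin n → ℂ)} (hΩ : IsOpen Ω) (φ : (Fin n → ℂ) → ℂ)
    (hφ : IsTest Ω φ) : (Ω →ᵇ ℂ) →L[ℂ] ℂ :=
  pair hΩ φ hφ.1.continuous hφ.2.1 hφ.2.2

/-- the closed space of the bounded continuous `∂̄`-closed forms -/
noncomputable def XX {Ω : Set (Fin n → ℂ)} (hΩ : IsOpen Ω) : Submodule ℂ (Fin n → (Ω →ᵇ ℂ)) :=
  ⨅ (j : Fin n) (k : Fin n) (φ : {φ : (Fin n → ℂ) → ℂ // IsTest Ω φ}),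
    LinearMap.ker (((pD hΩ k φ.1 φ.2).comp (ContinuousLinearMap.proj j) -
      (pD hΩ j φ.1 φ.2).comp (ContinuousLinearMap.proj k) :
        (Fin n → (Ω →ᵇ ℂ)) →L[ℂ] ℂ) : (Fin n → (Ω →ᵇ ℂ)) →ₗ[ℂ] ℂ)

lemma mem_XX {Ω : Set (Fin n → ℂ)} (hΩ : IsOpen Ω) (f : Fin n → (Ω →ᵇ ℂ)) :
    f ∈ XX hΩ ↔ DbarClosed Ω (fun x j => ext0 Ω (f j) x) := by
  unfold XX DbarClosed
  simp only [Submodule.mem_iInf, LinearMap.mem_ker, ContinuousLinearMap.coe_coe,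
    _root_.sub_apply, ContinuousLinearMap.comp_apply, ContinuousLinearMap.proj_apply,
    sub_eq_zero]
  constructor
  · intro h j k φ hφ
    exact h j k ⟨φ, hφ⟩
  · intro h j k φ
    exact h j k φ.1 φ.2

lemma closed_XX {Ω : Set (Fin n → ℂ)} (hΩ : IsOpen Ω) :
    IsClosed ((XX hΩ : Submodule ℂ (Fin n → (Ω →ᵇ ℂ))) : Set (Fin n → (Ω →ᵇ ℂ))) := by
  unfold XX
  simp only [Submodule.coe_iInf]
  refine isClosed_iInter fun j => isClosed_iInter fun k => isClosed_iInter fun φ => ?_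
  exact ContinuousLinearMap.isClosed_ker _

/-- the closed space of the pairs `(u, f)` with `f` closed and `∂̄u = f` -/
noncomputable def YY {Ω : Set (Fin n → ℂ)} (hΩ : IsOpen Ω) :
    Submodule ℂ ((Ω →ᵇ ℂ) × (Fin n → (Ω →ᵇ ℂ))) :=
  (XX hΩ).comap (LinearMap.snd ℂ _ _) ⊓
  ⨅ (j : Fin n) (φ : {φ : (Fin n → ℂ) → ℂ // IsTest Ω φ}),
    LinearMap.ker (((pD hΩ j φ.1 φ.2).comp (ContinuousLinearMap.fst ℂ _ _) +
      (pT hΩ φ.1 φ.2).comp ((ContinuousLinearMap.proj j).comp (ContinuousLinearMap.snd ℂ _ _)) :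
        ((Ω →ᵇ ℂ) × (Fin n → (Ω →ᵇ ℂ))) →L[ℂ] ℂ) :
        ((Ω →ᵇ ℂ) × (Fin n → (Ω →ᵇ ℂ))) →ₗ[ℂ] ℂ)

lemma mem_YY {Ω : Set (Fin n → ℂ)} (hΩ : IsOpen Ω) (p : (Ω →ᵇ ℂ) × (Fin n → (Ω →ᵇ ℂ))) :
    p ∈ YY hΩ ↔ p.2 ∈ XX hΩ ∧ SolvesDbar Ω (ext0 Ω p.1) (fun x j => ext0 Ω (p.2 j) x) := by
  unfold YY SolvesDbar
  simp only [Submodule.mem_inf, Submodule.mem_comap, LinearMap.snd_apply, Submodule.mem_iInf,
    LinearMap.mem_ker, ContinuousLinearMap.coe_coe, _root_.add_apply,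
    ContinuousLinearMap.comp_apply, ContinuousLinearMap.proj_apply,
    ContinuousLinearMap.coe_fst', ContinuousLinearMap.coe_snd', add_eq_zero_iff_eq_neg]
  refine and_congr_right fun _ => ?_
  constructor
  · intro h j φ hφ
    exact h j ⟨φ, hφ⟩
  · intro h j φ
    exact h j φ.1 φ.2

lemma closed_YY {Ω : Set (Fin n → ℂ)} (hΩ : IsOpen Ω) :
    IsClosed ((YY hΩ : Submodule ℂ ((Ω →ᵇ ℂ) × (Fin n → (Ω →ᵇ ℂ)))) :
      Set ((Ω →ᵇ ℂ) × (Fin n → (Ω →ᵇ ℂ)))) := by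
  unfold YY
  simp only [Submodule.coe_inf, Submodule.coe_iInf]
  refine IsClosed.inter ?_ (isClosed_iInter fun j => isClosed_iInter fun φ => ?_)
  · exact (closed_XX hΩ).preimage continuous_snd
  · exact ContinuousLinearMap.isClosed_ker _

/-- If every bounded continuous closed form has a bounded continuous solution, there is a uniform
estimate. -/
theorem uniform {Ω : Set (Fin n → ℂ)} (hΩ : IsOpen Ω)
    (h : ∀ f ∈ XX hΩ, ∃ u : Ω →ᵇ ℂ, (u, f) ∈ YY hΩ) :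
    ∃ C > 0, ∀ f ∈ XX hΩ, ∃ u : Ω →ᵇ ℂ, (u, f) ∈ YY hΩ ∧ ‖u‖ ≤ C * ‖f‖ := by
  have : CompleteSpace (XX hΩ) := (closed_XX hΩ).completeSpace_coe
  have : CompleteSpace (YY hΩ) := (closed_YY hΩ).completeSpace_coe
  let S : YY hΩ →L[ℂ] (Fin n → (Ω →ᵇ ℂ)) :=
    (ContinuousLinearMap.snd ℂ (Ω →ᵇ ℂ) (Fin n → (Ω →ᵇ ℂ))).comp (YY hΩ).subtypeL
  let T : YY hΩ →L[ℂ] XX hΩ := S.codRestrict (XX hΩ) (fun p => ((mem_YY hΩ p.1).1 p.2).1)
  have hT : Function.Surjective T := by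
    rintro ⟨f, hf⟩
    obtain ⟨u, hu⟩ := h f hf
    exact ⟨⟨(u, f), hu⟩, rfl⟩
  obtain ⟨C, hC, hCs⟩ := ContinuousLinearMap.exists_preimage_norm_le T hT
  refine ⟨C, hC, fun f hf => ?_⟩
  obtain ⟨⟨⟨u, f'⟩, hp⟩, hpf, hpn⟩ := hCs ⟨f, hf⟩
  have e : f' = f := congrArg Subtype.val hpf
  subst e
  refine ⟨u, hp, ?_⟩
  have h1 : ‖u‖ ≤ ‖((u, f') : (Ω →ᵇ ℂ) × (Fin n → (Ω →ᵇ ℂ)))‖ := by
    rw [Prod.norm_def]
    exact le_max_left _ _
  exact h1.trans hpn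

end Pool.Agent.Y947.HB
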