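import Pool.Agent.Y947.HB.Ban

set_option autoImplicit false

open MeasureTheory Set
open scoped BoundedContinuousFunction

namespace Pool.Agent.Y947.HB

open Pool.Agent.Helper303.Db Pool.Agent.Helper303.Ho

variable {m : ℕ}

lemma dbarClosed_congr {n : ℕ} {Ω : Set (Fin n → ℂ)} (hΩ : IsOpen Ω)
    {f g : (Fin n → ℂ) → (Fin n → ℂ)} (h : ∀ x ∈ Ω, f x = g x) (hf : DbarClosed Ω f) :
    DbarClosed Ω g := by
  intro j k φ hφ
  have h1 : ∫ x in Ω, g x j * dbar k φ x = ∫ x in Ω, f x j * dbar k φ x :=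
    setIntegral_congr_fun hΩ.measurableSet (fun x hx => by simp only [h x hx])
  have h2 : ∫ x in Ω, g x k * dbar j φ x = ∫ x in Ω, f x k * dbar j φ x :=
    setIntegral_congr_fun hΩ.measurableSet (fun x hx => by simp only [h x hx])
  rw [h1, h2]
  exact hf j k φ hφ

lemma solves_congr {n : ℕ} {Ω : Set (Fin n → ℂ)} (hΩ : IsOpen Ω)
    {u v : (Fin n → ℂ) → ℂ} {f g : (Fin n → ℂ) → (Fin n → ℂ)} (hu : ∀ x ∈ Ω, u x = v x)
    (h : ∀ x ∈ Ω, f x = g x) (hf : SolvesDbar Ω u f) :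
    SolvesDbar Ω v g := by
  intro j φ hφ
  have h1 : ∫ x in Ω, g x j * φ x = ∫ x in Ω, f x j * φ x :=
    setIntegral_congr_fun hΩ.measurableSet (fun x hx => by simp only [h x hx])
  have h2 : ∫ x in Ω, v x * dbar j φ x = ∫ x in Ω, u x * dbar j φ x :=
    setIntegral_congr_fun hΩ.measurableSet (fun x hx => by simp only [hu x hx])
  rw [h1, h2]
  exact hf j φ hφ

/-- a bounded continuous function on `Ω` -/
noncomputable def toB {n : ℕ} {Ω : Set (Fin n → ℂ)} (u : (Fin n → ℂ) → ℂ)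
    (hu : ContinuousOn u Ω) (B : ℝ) (hB : ∀ x ∈ Ω, ‖u x‖ ≤ B) : Ω →ᵇ ℂ :=
  BoundedContinuousFunction.ofNormedAddCommGroup (Ω.domRestrict u)
    (continuousOn_iff_continuous_domRestrict.1 hu) B (fun x => hB x.1 x.2)

lemma toB_ext {n : ℕ} {Ω : Set (Fin n → ℂ)} (u : (Fin n → ℂ) → ℂ)
    (hu : ContinuousOn u Ω) (B : ℝ) (hB : ∀ x ∈ Ω, ‖u x‖ ≤ B) (x : Fin n → ℂ) (hx : x ∈ Ω) :
    u x = ext0 Ω (toB u hu B hB) x := by
  rw [ext0_of_mem _ hx]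
  rfl

/-- the forms of the construction violate every uniform estimate -/
theorem no_uniform (m : ℕ) :
    ¬ ∃ C > 0, ∀ f ∈ XX (isOpen_OmH (m := m)), ∃ u : OmH m →ᵇ ℂ,
      (u, f) ∈ YY (isOpen_OmH (m := m)) ∧ ‖u‖ ≤ C * ‖f‖ := by
  rintro ⟨C, hC, h⟩
  obtain ⟨q, hq⟩ := exists_nat_gt (max 2 (128 * C))
  have hq2 : 2 ≤ q := by
    have : (2 : ℝ) < q := (le_max_left _ _).trans_lt hq
    exact_mod_cast this.le
  have hqC : 128 * C < q := (le_max_right _ _).trans_lt hq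
  have hq0 : (0 : ℝ) < q := by
    have : (2 : ℝ) ≤ q := by exact_mod_cast hq2
    linarith
  have hδ : 0 < 1 / (q : ℝ) ^ 9 := by positivity
  obtain ⟨h1, hρ, hρ4, hr, hρr, hrk, hδρ⟩ := params hq2
  have hfb : ∀ (j : Fin (m + 3)), ∀ x ∈ OmH m,
      ‖fH (2 * q ^ 72) (1 / (q : ℝ) ^ 9) x j‖ ≤ 8 * (1 / (q : ℝ) ^ 9) := by
    intro j x hx
    refine le_trans ?_ (norm_fH hδ h1 hx)
    rw [← sqrt_fH]
    apply Real.le_sqrt_of_sq_le
    exact Finset.single_le_sum (f := fun i => ‖fH (2 * q ^ 72) (1 / (q : ℝ) ^ 9) x i‖ ^ 2)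
      (fun _ _ => by positivity) (Finset.mem_univ j)
  have hfc : ∀ j : Fin (m + 3), ContinuousOn (fun x => fH (2 * q ^ 72) (1 / (q : ℝ) ^ 9) x j)
      (OmH m) := fun j =>
    ((continuous_apply j).comp (continuous_fH (m := m) _ hδ)).continuousOn
  set f : Fin (m + 3) → (OmH m →ᵇ ℂ) := fun j => toB _ (hfc j) _ (hfb j) with hf
  have hfe : ∀ x ∈ OmH m, fH (2 * q ^ 72) (1 / (q : ℝ) ^ 9) x =
      fun j => ext0 (OmH m) (f j) x := by
    intro x hx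
    funext j
    exact toB_ext _ (hfc j) _ (hfb j) x hx
  have hfX : f ∈ XX (isOpen_OmH (m := m)) := by
    rw [mem_XX]
    exact dbarClosed_congr isOpen_OmH hfe (fH_closed _ hδ isOpen_OmH)
  have hfn : ‖f‖ ≤ 8 * (1 / (q : ℝ) ^ 9) := by
    rw [pi_norm_le_iff_of_nonneg (by positivity)]
    intro j
    rw [BoundedContinuousFunction.norm_le (by positivity)]
    intro x
    exact hfb j x.1 x.2
  obtain ⟨u, hu, hun⟩ := h f hfX
  have hus := ((mem_YY _ _).1 hu).2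
  have hus' : SolvesDbar (OmH m) (ext0 (OmH m) u) (fH (2 * q ^ 72) (1 / (q : ℝ) ^ 9)) :=
    solves_congr isOpen_OmH (fun x _ => rfl) (fun x hx => (hfe x hx).symm) hus
  have hl := sup_lower hq2 (ext0_cont u) (fun x _ => ext0_norm u x) hus'
  have h2 : 1 / (16 * (q : ℝ) ^ 8) ≤ C * (8 * (1 / (q : ℝ) ^ 9)) :=
    hl.trans (hun.trans (mul_le_mul_of_nonneg_left hfn hC.le))
  have h3 : 1 / (16 * (q : ℝ) ^ 8) * (16 * (q : ℝ) ^ 9) ≤
      C * (8 * (1 / (q : ℝ) ^ 9)) * (16 * (q : ℝ) ^ 9) := by gcongr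
  have e1 : 1 / (16 * (q : ℝ) ^ 8) * (16 * (q : ℝ) ^ 9) = q := by field_simp
  have e2 : C * (8 * (1 / (q : ℝ) ^ 9)) * (16 * (q : ℝ) ^ 9) = 128 * C := by
    field_simp
    ring
  rw [e1, e2] at h3
  linarith

/-- a single bounded continuous closed form without bounded continuous solutions -/
theorem single (m : ℕ) : ∃ f : (Fin (m + 3) → ℂ) → (Fin (m + 3) → ℂ),
    ContinuousOn f (OmH m) ∧ (∀ x ∈ OmH m, Real.sqrt (∑ j, ‖f x j‖ ^ 2) ≤ 1) ∧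
      DbarClosed (OmH m) f ∧
      ∀ u : (Fin (m + 3) → ℂ) → ℂ, ContinuousOn u (OmH m) → (∃ B : ℝ, ∀ x ∈ OmH m, ‖u x‖ ≤ B) →
        ¬ SolvesDbar (OmH m) u f := by
  have h0 : ∃ f ∈ XX (isOpen_OmH (m := m)), ∀ u : OmH m →ᵇ ℂ,
      (u, f) ∉ YY (isOpen_OmH (m := m)) := by
    by_contra hcon
    push Not at hcon
    exact no_uniform m (uniform isOpen_OmH hcon)
  obtain ⟨f₀, hf₀, hno₀⟩ := h0
  -- normalise
  set N : ℝ := Real.sqrt (∑ j, ‖f₀ j‖ ^ 2) + 1 with hN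
  have hN0 : 0 < N := by positivity
  set c : ℂ := ((N⁻¹ : ℝ) : ℂ) with hc
  have hc0 : c ≠ 0 := by
    rw [hc]
    exact_mod_cast (inv_pos.2 hN0).ne'
  set f : Fin (m + 3) → (OmH m →ᵇ ℂ) := c • f₀ with hf
  have hfX : f ∈ XX (isOpen_OmH (m := m)) := (XX _).smul_mem c hf₀
  have hno : ∀ u : OmH m →ᵇ ℂ, (u, f) ∉ YY (isOpen_OmH (m := m)) := by
    intro u hu
    apply hno₀ (c⁻¹ • u)
    have h1 := (YY (isOpen_OmH (m := m))).smul_mem c⁻¹ hu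
    have e : c⁻¹ • (u, f) = (c⁻¹ • u, f₀) := by
      rw [Prod.smul_mk, hf, inv_smul_smul₀ hc0]
    rwa [e] at h1
  refine ⟨fun x j => ext0 (OmH m) (f j) x, ?_, ?_, (mem_XX _ f).1 hfX, ?_⟩
  · exact continuousOn_pi.2 fun j => ext0_cont (f j)
  · intro x _
    have h1 : ∑ j, ‖ext0 (OmH m) (f j) x‖ ^ 2 ≤ (N⁻¹ * N) ^ 2 := by
      have h2 : ∀ j, ‖ext0 (OmH m) (f j) x‖ ^ 2 ≤ (N⁻¹) ^ 2 * ‖f₀ j‖ ^ 2 := by
        intro j
        have h3 : ‖ext0 (OmH m) (f j) x‖ ≤ N⁻¹ * ‖f₀ j‖ := by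
          refine (ext0_norm (f j) x).trans (le_of_eq ?_)
          rw [hf, Pi.smul_apply, norm_smul, hc, Complex.norm_real, Real.norm_eq_abs,
            abs_of_pos (inv_pos.2 hN0)]
        calc ‖ext0 (OmH m) (f j) x‖ ^ 2 ≤ (N⁻¹ * ‖f₀ j‖) ^ 2 := by gcongr
          _ = _ := by ring
      calc ∑ j, ‖ext0 (OmH m) (f j) x‖ ^ 2 ≤ ∑ j, (N⁻¹) ^ 2 * ‖f₀ j‖ ^ 2 :=
            Finset.sum_le_sum fun j _ => h2 j
        _ = (N⁻¹) ^ 2 * ∑ j, ‖f₀ j‖ ^ 2 := by rw [Finset.mul_sum]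
        _ ≤ (N⁻¹) ^ 2 * N ^ 2 := by
            apply mul_le_mul_of_nonneg_left _ (by positivity)
            have h4 : (∑ j, ‖f₀ j‖ ^ 2) = Real.sqrt (∑ j, ‖f₀ j‖ ^ 2) ^ 2 :=
              (Real.sq_sqrt (by positivity)).symm
            rw [h4]
            apply pow_le_pow_left₀ (Real.sqrt_nonneg _)
            rw [hN]
            linarith
        _ = _ := by ring
    rw [inv_mul_cancel₀ hN0.ne', one_pow] at h1
    calc Real.sqrt (∑ j, ‖ext0 (OmH m) (f j) x‖ ^ 2) ≤ Real.sqrt 1 := Real.sqrt_le_sqrt h1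
      _ = 1 := Real.sqrt_one
  · rintro u hu ⟨B, hB⟩ hsol
    apply hno (toB u hu B hB)
    rw [mem_YY]
    refine ⟨hfX, ?_⟩
    exact solves_congr isOpen_OmH (toB_ext u hu B hB) (fun x _ => rfl) hsol

end Pool.Agent.Y947.HB
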